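import Mathlib
import Pool.Agent.H.MP_2b3591_co.Main

set_option autoImplicit false

namespace Pool.Agent.Results.MP_2b3591_co.Exp

open Finset

theorem result : ∃ c : ℝ, 1 < c ∧ ∀ k : ℕ, 3 ≤ k → ∃ (n : ℕ) (F : Finset (Finset (Fin n))),
    (∀ A ∈ F, A.card = k) ∧ (∀ A ∈ F, ∀ A' ∈ F, (A ∩ A').Nonempty) ∧
    IsLeast {t : ℕ | ∃ T : Finset (Fin n), T.card = t ∧ ∀ A ∈ F, (T ∩ A).Nonempty} k ∧
    ∀ B : Finset (Fin n), B.card = k - 1 →
      c ^ k < ((F.filter fun A => A ∩ B = ∅).card : ℝ) := by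
  refine ⟨107 / 100, by norm_num, fun k hk => ?_⟩
  obtain ⟨M, ⟨α, i1, i2, F, h1, h2, h3⟩, hM⟩ := Pool.Agent.H.MP_2b3591_co.all_good k hk
  have hM1 : 1 ≤ M := by
    rcases Nat.eq_zero_or_pos M with rfl | h
    · have : 0 < 2 ^ (k + 3) := by positivity
      simp at hM
    · exact h
  have hc : (107 / 100 : ℝ) ^ k < M := by
    refine lt_of_pow_lt_pow_left₀ 10 (by positivity) ?_
    have e1 : ((107 / 100 : ℝ) ^ k) ^ 10 ≤ 2 ^ k := by
      rw [← pow_mul, mul_comm, pow_mul]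
      exact pow_le_pow_left₀ (by positivity) (by norm_num) k
    have e2 : (2 : ℝ) ^ k < 2 ^ (k + 3) := pow_lt_pow_right₀ (by norm_num) (by omega)
    have e3 : (2 : ℝ) ^ (k + 3) ≤ (M : ℝ) ^ 10 := by exact_mod_cast hM
    linarith
  let e : α ≃ Fin (Fintype.card α) := Fintype.equivFin α
  let m : Finset α → Finset (Fin (Fintype.card α)) := fun A => A.map e.toEmbedding
  have minj : Function.Injective m := fun A B h => map_injective _ h
  have key : ∀ B : Finset (Fin (Fintype.card α)), B.card < k →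
      M ≤ ((F.image m).filter fun A => A ∩ B = ∅).card := by
    intro B hB
    refine (h3 (B.map e.symm.toEmbedding) (by simpa using hB)).trans ?_
    refine card_le_card_of_injOn m ?_ minj.injOn
    intro A hA
    simp only [mem_coe, mem_filter] at hA ⊢
    refine ⟨mem_image_of_mem _ hA.1, ?_⟩
    rw [← disjoint_iff_inter_eq_empty, disjoint_left]
    intro x hx hxB
    obtain ⟨a, ha, rfl⟩ := mem_map.1 hx
    exact disjoint_left.1 hA.2 ha (mem_map.2 ⟨_, hxB, by simp⟩)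
  have hint : ∀ A ∈ F.image m, ∀ A' ∈ F.image m, (A ∩ A').Nonempty := by
    intro A hA A' hA'
    obtain ⟨C, hC, rfl⟩ := mem_image.1 hA
    obtain ⟨C', hC', rfl⟩ := mem_image.1 hA'
    obtain ⟨x, hx, hx'⟩ := not_disjoint_iff.1 (h2 C hC C' hC')
    exact ⟨e x, mem_inter.2 ⟨mem_map_of_mem _ hx, mem_map_of_mem _ hx'⟩⟩
  have hcard : ∀ A ∈ F.image m, A.card = k := by
    intro A hA
    obtain ⟨C, hC, rfl⟩ := mem_image.1 hA
    simp [m, h1 C hC]
  refine ⟨Fintype.card α, F.image m, hcard, hint, ⟨?_, ?_⟩, fun B hB => ?_⟩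
  · obtain ⟨A, hA⟩ := card_pos.1 (hM1.trans (key ∅ (by simp; omega)))
    have hA' := (mem_filter.1 hA).1
    exact ⟨A, hcard A hA', hint A hA'⟩
  · rintro t ⟨T, rfl, hT⟩
    by_contra hlt
    obtain ⟨A, hA⟩ := card_pos.1 (hM1.trans (key T (not_le.1 hlt)))
    have h5 := hT A (mem_filter.1 hA).1
    rw [inter_comm, (mem_filter.1 hA).2] at h5
    exact not_nonempty_empty h5
  · exact hc.trans_le (by exact_mod_cast key B (by omega))

end Pool.Agent.Results.MP_2b3591_co.Exp
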